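import Pool.Agent.Lib.MP_b75863_nt.Defs

set_option autoImplicit false
open Filter Topology

namespace Pool.Agent.Lib.MP_b75863_nt

/-- residue as a natural number -/
def res (m : ℕ) (z : ℤ) : ℕ := (z % (m : ℤ)).toNat

lemma res_cast {m : ℕ} (hm : 1 ≤ m) (z : ℤ) : ((res m z : ℕ) : ℤ) = z % (m : ℤ) := by
  unfold res
  exact Int.toNat_of_nonneg (Int.emod_nonneg _ (by omega))

lemma res_lt {m : ℕ} (hm : 1 ≤ m) (z : ℤ) : res m z < m := by
  have h1 := res_cast hm z
  have h2 := Int.emod_lt_of_pos z (by omega : (0 : ℤ) < m)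
  omega

lemma res_add_mul {m : ℕ} (z y : ℤ) : res m (z + m * y) = res m z := by
  unfold res; rw [Int.add_mul_emod_self_left]

lemma res_eq_iff {m : ℕ} (hm : 1 ≤ m) (z : ℤ) (j : ℕ) : res m z = j ↔ z % (m : ℤ) = (j : ℤ) := by
  rw [← res_cast hm z]; exact_mod_cast Iff.rfl

lemma res_natCast {m j : ℕ} (hj : j < m) : res m (j : ℤ) = j := by
  unfold res
  rw [Int.emod_eq_of_lt (by omega) (by omega)]; simp

/-- Sums over a full period of a periodic function: shift invariance. -/
lemma sum_shift {n : ℕ} (hn : 1 ≤ n) (g : ℤ → ℝ) (hg : ∀ z, g (z + n) = g z) (c : ℤ) :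
    ∑ h ∈ Finset.range n, g (c + h) = ∑ h ∈ Finset.range n, g h := by
  -- step 1: shift by one
  have h1 : ∀ c : ℤ, ∑ h ∈ Finset.range n, g (c + 1 + h) = ∑ h ∈ Finset.range n, g (c + h) := by
    intro c
    have e1 : ∑ h ∈ Finset.range n, g (c + 1 + h) = ∑ h ∈ Finset.range n, g (c + ((h + 1 : ℕ) : ℤ)) := by
      apply Finset.sum_congr rfl; intro h _; congr 1; push_cast; ring
    rw [e1]
    have e2 := Finset.sum_range_succ' (fun h : ℕ => g (c + (h : ℤ))) n
    have e3 := Finset.sum_range_succ (fun h : ℕ => g (c + (h : ℤ))) n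
    have e4 : g (c + (n : ℤ)) = g (c + ((0 : ℕ) : ℤ)) := by rw [hg]; simp
    linarith
  induction c using Int.induction_on with
  | zero => simp
  | succ i ih =>
    have := h1 (i : ℤ)
    rw [ih] at this; exact this
  | pred i ih =>
    have := h1 (-(i : ℤ) - 1)
    rw [show -(i : ℤ) - 1 + 1 = -i by ring] at this
    rw [← this]; exact ih

lemma periodic_mul {n : ℕ} (g : ℤ → ℝ) (hg : ∀ z, g (z + n) = g z) (z y : ℤ) :
    g (z + n * y) = g z := by
  induction y using Int.induction_on with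
  | zero => simp
  | succ i ih => rw [show z + n * ((i : ℤ) + 1) = (z + n * i) + n by ring, hg, ih]
  | pred i ih =>
    have := hg (z + n * (-(i : ℤ) - 1))
    rw [show z + n * (-(i : ℤ) - 1) + n = z + n * (-(i : ℤ)) by ring, ih] at this
    exact this.symm

lemma periodic_congr {n : ℕ} (g : ℤ → ℝ) (hg : ∀ z, g (z + n) = g z) {z w : ℤ}
    (h : z ≡ w [ZMOD n]) : g z = g w := by
  obtain ⟨c, hc⟩ := h.symm.dvd
  have : z = w + n * c := by linarith
  rw [this, periodic_mul g hg]

/-- Sums over a full period: reindexing by a multiplier coprime to the period. -/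
lemma sum_unit {n : ℕ} (hn : 1 ≤ n) (g : ℤ → ℝ) (hg : ∀ z, g (z + n) = g z) (M : ℤ)
    (hM : IsCoprime M (n : ℤ)) :
    ∑ h ∈ Finset.range n, g (M * h) = ∑ h ∈ Finset.range n, g h := by
  obtain ⟨u, v, huv⟩ := hM
  have hred : ∀ z : ℤ, g ((res n z : ℕ) : ℤ) = g z := by
    intro z
    apply periodic_congr g hg
    rw [res_cast hn]; exact Int.mod_modEq z n
  refine Finset.sum_nbij' (fun h => res n (M * h)) (fun h => res n (u * h)) ?_ ?_ ?_ ?_ ?_
  · intro h _; exact Finset.mem_range.mpr (res_lt hn _)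
  · intro h _; exact Finset.mem_range.mpr (res_lt hn _)
  · intro h hh
    have hlt := Finset.mem_range.mp hh
    rw [res_eq_iff hn]
    have e1 : u * ((res n (M * h) : ℕ) : ℤ) ≡ (h : ℤ) [ZMOD n] := by
      have e2 : ((res n (M * h) : ℕ) : ℤ) ≡ M * h [ZMOD n] := by
        rw [res_cast hn]; exact Int.mod_modEq _ _
      have e3 := e2.mul_left u
      refine e3.trans ?_
      rw [Int.modEq_iff_dvd]
      refine ⟨v * h, ?_⟩
      linear_combination (-(h : ℤ)) * huv
    rw [e1, Int.emod_eq_of_lt (by omega) (by omega)]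
  · intro h hh
    have hlt := Finset.mem_range.mp hh
    rw [res_eq_iff hn]
    have e1 : M * ((res n (u * h) : ℕ) : ℤ) ≡ (h : ℤ) [ZMOD n] := by
      have e2 : ((res n (u * h) : ℕ) : ℤ) ≡ u * h [ZMOD n] := by
        rw [res_cast hn]; exact Int.mod_modEq _ _
      have e3 := e2.mul_left M
      refine e3.trans ?_
      rw [Int.modEq_iff_dvd]
      refine ⟨v * h, ?_⟩
      linear_combination (-(h : ℤ)) * huv
    rw [e1, Int.emod_eq_of_lt (by omega) (by omega)]
  · intro h _; exact (hred _).symm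

namespace RPType

variable {d : ℕ} {a b : ℕ → ℤ} {T : ℤ → ℤ}

lemma digit_lt (hT : RPType d a b T) (z : ℤ) : (z % (d : ℤ)).toNat < d :=
  res_lt (by have := hT.two_le; omega) z

lemma add (hT : RPType d a b T) (z y : ℤ) :
    T (z + d * y) = T z + a (z % (d : ℤ)).toNat * y := by
  have hd : (d : ℤ) ≠ 0 := by have := hT.two_le; omega
  rw [hT.eq, hT.eq, Int.add_mul_emod_self_left]
  have e : a (z % (d : ℤ)).toNat * (z + d * y) - b (z % (d : ℤ)).toNat =
      a (z % (d : ℤ)).toNat * z - b (z % (d : ℤ)).toNat + d * (a (z % (d : ℤ)).toNat * y) := by ring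
  rw [e, Int.add_mul_ediv_left _ _ hd]

lemma iter (hT : RPType d a b T) (t : ℕ) (z : ℤ) :
    ∃ M : ℤ, IsCoprime M (d : ℤ) ∧ ∀ y : ℤ, T^[t] (z + d ^ t * y) = T^[t] z + M * y := by
  induction t generalizing z with
  | zero => exact ⟨1, isCoprime_one_left, fun y => by simp⟩
  | succ t ih =>
    obtain ⟨M, hM, h⟩ := ih (T z)
    refine ⟨M * a (z % (d : ℤ)).toNat, hM.mul_left (hT.coprime _ (hT.digit_lt z)), fun y => ?_⟩
    rw [Function.iterate_succ_apply, Function.iterate_succ_apply]
    have e : z + (d : ℤ) ^ (t + 1) * y = z + d * (d ^ t * y) := by ring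
    rw [e, hT.add, show a (z % (d : ℤ)).toNat * ((d : ℤ) ^ t * y) =
      d ^ t * (a (z % (d : ℤ)).toNat * y) by ring, h]
    ring

/-- iterates shift by multiples of `m` stay congruent modulo `m` -/
lemma res_iter_add (hT : RPType d a b T) (m t s : ℕ) (hts : t ≤ s) (z y : ℤ) :
    ∃ w : ℤ, T^[t] (z + m * d ^ s * y) = T^[t] z + m * w := by
  obtain ⟨M, -, h⟩ := hT.iter t z
  refine ⟨M * (d ^ (s - t) * y), ?_⟩
  have e : z + (m : ℤ) * d ^ s * y = z + d ^ t * (m * (d ^ (s - t) * y)) := by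
    have : (d : ℤ) ^ s = d ^ t * d ^ (s - t) := by rw [← pow_add]; congr 1; omega
    rw [this]; ring
  rw [e, h]; ring

/-- The basic averaging identity: `∑_{h<d} f(T(z + m h) mod m) = d ∑_j q_{ij} f(j)`. -/
lemma avg (hT : RPType d a b T) {m : ℕ} (hm : 1 ≤ m) (f : ℕ → ℝ) (z : ℤ) :
    ∑ h ∈ Finset.range d, f (res m (T (z + m * h))) =
      d * ∑ j ∈ Finset.range m, q d m T (res m z) j * f j := by
  have hd : 1 ≤ d := by have := hT.two_le; omega
  have hd0 : (d : ℝ) ≠ 0 := by positivity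
  set i := res m z with hi
  have hil : i < m := res_lt hm z
  -- rewrite the right side as a sum over `k < m * d`
  have h1 : (d : ℝ) * ∑ j ∈ Finset.range m, q d m T i j * f j =
      ∑ k ∈ (Finset.range (m * d)).filter (fun k : ℕ => (k : ℤ) % (m : ℤ) = (i : ℤ)),
        f (res m (T (k : ℤ))) := by
    have e1 : ∀ j ∈ Finset.range m, (d : ℝ) * (q d m T i j * f j) =
        ∑ k ∈ (Finset.range (m * d)).filter (fun k : ℕ => (k : ℤ) % (m : ℤ) = (i : ℤ)),
          if res m (T (k : ℤ)) = j then f j else 0 := by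
      intro j _
      rw [← Finset.sum_filter, Finset.sum_const, nsmul_eq_mul, Finset.filter_filter]
      unfold q
      have e2 : ((Finset.range (m * d)).filter (fun k : ℕ => (k : ℤ) % (m : ℤ) = (i : ℤ) ∧
          T (k : ℤ) % (m : ℤ) = (j : ℤ))) = ((Finset.range (m * d)).filter (fun k : ℕ =>
            (k : ℤ) % (m : ℤ) = (i : ℤ) ∧ res m (T (k : ℤ)) = j)) := by
        apply Finset.filter_congr; intro k _; rw [res_eq_iff hm]
      rw [e2]; field_simp
    rw [Finset.mul_sum, Finset.sum_congr rfl e1, Finset.sum_comm]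
    apply Finset.sum_congr rfl
    intro k _
    rw [Finset.sum_ite_eq]
    rw [if_pos (Finset.mem_range.mpr (res_lt hm _))]
  rw [h1]
  -- parametrise `k = i + m h`
  have h2 : ∑ k ∈ (Finset.range (m * d)).filter (fun k : ℕ => (k : ℤ) % (m : ℤ) = (i : ℤ)),
        f (res m (T (k : ℤ))) = ∑ h ∈ Finset.range d, f (res m (T ((i : ℤ) + m * h))) := by
    symm
    refine Finset.sum_nbij' (fun h => i + m * h) (fun k => k / m) ?_ ?_ ?_ ?_ ?_
    · intro h hh
      have hlt := Finset.mem_range.mp hh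
      refine Finset.mem_filter.mpr ⟨Finset.mem_range.mpr ?_, ?_⟩
      · calc i + m * h < m + m * h := by omega
          _ = m * (h + 1) := by ring
          _ ≤ m * d := Nat.mul_le_mul_left _ hlt
      · push_cast
        rw [Int.add_mul_emod_self_left, Int.emod_eq_of_lt (by omega) (by omega)]
    · intro k hk
      have hlt := Finset.mem_range.mp (Finset.mem_filter.mp hk).1
      exact Finset.mem_range.mpr (Nat.div_lt_of_lt_mul hlt)
    · intro h _
      show (i + m * h) / m = h
      rw [Nat.add_mul_div_left _ _ (by omega), Nat.div_eq_of_lt hil, zero_add]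
    · intro k hk
      have hk2 := (Finset.mem_filter.mp hk).2
      have hk3 : k % m = i := by exact_mod_cast hk2
      show i + m * (k / m) = k
      rw [← hk3]; exact Nat.mod_add_div k m
    · intro h _; push_cast; rfl
  rw [h2]
  -- shift
  have hz : z = (i : ℤ) + m * (z / m) := by
    rw [hi, res_cast hm]; exact (Int.emod_add_mul_ediv z m).symm
  have hper : ∀ y : ℤ, (fun y : ℤ => f (res m (T ((i : ℤ) + m * y)))) (y + d) =
      (fun y : ℤ => f (res m (T ((i : ℤ) + m * y)))) y := by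
    intro y
    show f (res m (T ((i : ℤ) + m * (y + d)))) = f (res m (T ((i : ℤ) + m * y)))
    have e : (i : ℤ) + m * (y + d) = ((i : ℤ) + m * y) + d * m := by ring
    rw [e, hT.add, show a (((i : ℤ) + m * y) % (d : ℤ)).toNat * (m : ℤ) =
      m * a (((i : ℤ) + m * y) % (d : ℤ)).toNat by ring, res_add_mul]
  have h3 := sum_shift hd (fun y : ℤ => f (res m (T ((i : ℤ) + m * y)))) hper (z / m)
  rw [← h3]
  apply Finset.sum_congr rfl
  intro h _
  show f (res m (T (z + m * h))) = f (res m (T ((i : ℤ) + m * (z / m + h))))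
  congr 3
  conv_lhs => rw [hz]
  ring

end RPType

end Pool.Agent.Lib.MP_b75863_nt
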