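import Pool.Agent.Lib.MP_b75863_nt.Basic

section

set_option autoImplicit false
open Filter Topology

namespace Pool.Agent.Lib.MP_b75863_nt

/-- one step of the chain applied to a function of the residue -/
noncomputable def Pop (d m : ℕ) (T : ℤ → ℤ) (f : ℕ → ℝ) (i : ℕ) : ℝ :=
  ∑ j ∈ Finset.range m, q d m T i j * f j

/-- the martingale increment -/
noncomputable def phi (d m : ℕ) (T : ℤ → ℤ) (f : ℕ → ℝ) (z : ℤ) : ℝ :=
  f (res m (T z)) - Pop d m T f (res m z)

variable {d : ℕ} {a b : ℕ → ℤ} {T : ℤ → ℤ}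

namespace RPType

lemma sum_phi (hT : RPType d a b T) {m : ℕ} (hm : 1 ≤ m) (f : ℕ → ℝ) (t : ℕ) (z : ℤ) :
    ∑ h ∈ Finset.range d, phi d m T f (T^[t] (z + m * d ^ t * h)) = 0 := by
  have hd : 1 ≤ d := by have := hT.two_le; omega
  obtain ⟨M, hM, hiter⟩ := hT.iter t z
  set u := T^[t] z with hu
  have e1 : ∀ h : ℕ, T^[t] (z + m * d ^ t * (h : ℤ)) = u + m * (M * h) := by
    intro h
    have := hiter (m * h)
    rw [show z + (m : ℤ) * d ^ t * h = z + d ^ t * (m * h) by ring, this]; ring
  have e2 : ∀ h ∈ Finset.range d, phi d m T f (T^[t] (z + m * d ^ t * (h : ℤ))) =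
      f (res m (T (u + m * (M * h)))) - Pop d m T f (res m u) := by
    intro h _
    rw [e1]; unfold phi; rw [res_add_mul]
  rw [Finset.sum_congr rfl e2, Finset.sum_sub_distrib, Finset.sum_const, Finset.card_range,
    nsmul_eq_mul]
  have hper : ∀ y : ℤ, (fun y : ℤ => f (res m (T (u + m * y)))) (y + d) =
      (fun y : ℤ => f (res m (T (u + m * y)))) y := by
    intro y
    show f (res m (T (u + m * (y + d)))) = f (res m (T (u + m * y)))
    have e : u + m * (y + d) = (u + m * y) + d * m := by ring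
    rw [e, hT.add, show a ((u + m * y) % (d : ℤ)).toNat * (m : ℤ) =
      m * a ((u + m * y) % (d : ℤ)).toNat by ring, res_add_mul]
  have h3 := sum_unit hd (fun y : ℤ => f (res m (T (u + m * y)))) hper M hM
  have h4 := hT.avg hm f u
  rw [h3, h4]; unfold Pop; ring

lemma phi_iter_periodic (hT : RPType d a b T) (m : ℕ) (f : ℕ → ℝ) (t s : ℕ) (hts : t + 1 ≤ s)
    (z y : ℤ) : phi d m T f (T^[t] (z + m * d ^ s * y)) = phi d m T f (T^[t] z) := by
  obtain ⟨w, hw⟩ := hT.res_iter_add m t s (by omega) z y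
  obtain ⟨w', hw'⟩ := hT.res_iter_add m (t + 1) s hts z y
  unfold phi
  rw [← Function.iterate_succ_apply' T t, ← Function.iterate_succ_apply' T t, hw', hw,
    res_add_mul, res_add_mul]

/-- Orthogonality of the increments at different times. -/
lemma orth (hT : RPType d a b T) {m : ℕ} (hm : 1 ≤ m) (f : ℕ → ℝ) (L t t' : ℕ)
    (h1 : t < t') (h2 : t' < L) :
    ∑ z ∈ Finset.range (m * d ^ L),
      phi d m T f (T^[t] (z : ℤ)) * phi d m T f (T^[t'] (z : ℤ)) = 0 := by
  have hd : 2 ≤ d := hT.two_le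
  have hn : 1 ≤ m * d ^ L := Nat.mul_pos hm (by positivity)
  set g : ℤ → ℝ := fun z => phi d m T f (T^[t] z) * phi d m T f (T^[t'] z) with hg
  have hper : ∀ z, g (z + ((m * d ^ L : ℕ) : ℤ)) = g z := by
    intro z
    simp only [hg]
    have e : z + ((m * d ^ L : ℕ) : ℤ) = z + m * d ^ L * 1 := by push_cast; ring
    rw [e, hT.phi_iter_periodic m f t L (by omega), hT.phi_iter_periodic m f t' L (by omega)]
  have hshift : ∀ h : ℕ, ∑ z ∈ Finset.range (m * d ^ L), g ((m : ℤ) * d ^ t' * h + z) =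
      ∑ z ∈ Finset.range (m * d ^ L), g z := fun h => sum_shift hn g hper _
  have h3 : (d : ℝ) * ∑ z ∈ Finset.range (m * d ^ L), g z = 0 := by
    have e1 : (d : ℝ) * ∑ z ∈ Finset.range (m * d ^ L), g z =
        ∑ h ∈ Finset.range d, ∑ z ∈ Finset.range (m * d ^ L), g ((m : ℤ) * d ^ t' * h + z) := by
      rw [Finset.sum_congr rfl (fun h _ => hshift h), Finset.sum_const, Finset.card_range,
        nsmul_eq_mul]
    rw [e1, Finset.sum_comm]
    apply Finset.sum_eq_zero
    intro z _
    have e2 : ∀ h ∈ Finset.range d, g ((m : ℤ) * d ^ t' * h + z) =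
        phi d m T f (T^[t] (z : ℤ)) * phi d m T f (T^[t'] ((z : ℤ) + m * d ^ t' * h)) := by
      intro h _
      simp only [hg]
      rw [show (m : ℤ) * d ^ t' * h + z = z + m * d ^ t' * h by ring,
        hT.phi_iter_periodic m f t t' (by omega)]
    rw [Finset.sum_congr rfl e2, ← Finset.mul_sum, hT.sum_phi hm f t' (z : ℤ), mul_zero]
  have hd0 : (d : ℝ) ≠ 0 := by positivity
  exact (mul_eq_zero.mp h3).resolve_left hd0

/-- Second moment bound over a full period. -/
lemma second_moment (hT : RPType d a b T) {m : ℕ} (hm : 1 ≤ m) (f : ℕ → ℝ) (L : ℕ) {B : ℝ}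
    (hB : ∀ z, |phi d m T f z| ≤ B) :
    ∑ z ∈ Finset.range (m * d ^ L), (∑ t ∈ Finset.range L, phi d m T f (T^[t] (z : ℤ))) ^ 2 ≤
      L * ((m * d ^ L : ℕ) : ℝ) * B ^ 2 := by
  have h1 : ∑ z ∈ Finset.range (m * d ^ L),
      (∑ t ∈ Finset.range L, phi d m T f (T^[t] (z : ℤ))) ^ 2 =
      ∑ t ∈ Finset.range L, ∑ t' ∈ Finset.range L, ∑ z ∈ Finset.range (m * d ^ L),
        phi d m T f (T^[t] (z : ℤ)) * phi d m T f (T^[t'] (z : ℤ)) := by
    have : ∀ z ∈ Finset.range (m * d ^ L),
        (∑ t ∈ Finset.range L, phi d m T f (T^[t] (z : ℤ))) ^ 2 =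
        ∑ t ∈ Finset.range L, ∑ t' ∈ Finset.range L,
          phi d m T f (T^[t] (z : ℤ)) * phi d m T f (T^[t'] (z : ℤ)) := by
      intro z _; rw [sq, Finset.sum_mul_sum]
    rw [Finset.sum_congr rfl this, Finset.sum_comm]
    apply Finset.sum_congr rfl
    intro t _
    rw [Finset.sum_comm]
  rw [h1]
  have h2 : ∀ t ∈ Finset.range L, ∑ t' ∈ Finset.range L, ∑ z ∈ Finset.range (m * d ^ L),
        phi d m T f (T^[t] (z : ℤ)) * phi d m T f (T^[t'] (z : ℤ)) =
      ∑ z ∈ Finset.range (m * d ^ L), phi d m T f (T^[t] (z : ℤ)) ^ 2 := by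
    intro t ht
    rw [Finset.sum_eq_single t]
    · apply Finset.sum_congr rfl; intro z _; ring
    · intro t' ht' hne
      rcases lt_or_gt_of_ne hne with h | h
      · have := hT.orth hm f L t' t h (Finset.mem_range.mp ht)
        rw [← this]; apply Finset.sum_congr rfl; intro z _; ring
      · exact hT.orth hm f L t t' h (Finset.mem_range.mp ht')
    · intro h; exact absurd ht h
  rw [Finset.sum_congr rfl h2]
  have h3 : ∀ t ∈ Finset.range L, ∑ z ∈ Finset.range (m * d ^ L),
      phi d m T f (T^[t] (z : ℤ)) ^ 2 ≤ ((m * d ^ L : ℕ) : ℝ) * B ^ 2 := by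
    intro t _
    calc ∑ z ∈ Finset.range (m * d ^ L), phi d m T f (T^[t] (z : ℤ)) ^ 2
        ≤ ∑ z ∈ Finset.range (m * d ^ L), B ^ 2 := by
          apply Finset.sum_le_sum; intro z _
          exact sq_le_sq' (by linarith [neg_abs_le (phi d m T f (T^[t] (z : ℤ))), hB (T^[t] (z : ℤ))])
            (by linarith [le_abs_self (phi d m T f (T^[t] (z : ℤ))), hB (T^[t] (z : ℤ))])
      _ = _ := by rw [Finset.sum_const, Finset.card_range, nsmul_eq_mul]
  calc _ ≤ ∑ t ∈ Finset.range L, ((m * d ^ L : ℕ) : ℝ) * B ^ 2 := Finset.sum_le_sum h3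
    _ = _ := by rw [Finset.sum_const, Finset.card_range, nsmul_eq_mul]; ring

/-- For a trajectory that is uniformly distributed modulo `n`, averages of `n`-periodic functions
converge to the mean over a period. -/
lemma avg_periodic {n : ℕ} (hn : 1 ≤ n) {x : ℤ} (hu : UniformMod n T x) (g : ℤ → ℝ)
    (hg : ∀ z, g (z + n) = g z) :
    Tendsto (fun N : ℕ => (∑ k ∈ Finset.range N, g (T^[k] x)) / N) atTop
      (𝓝 ((∑ w ∈ Finset.range n, g w) / n)) := by
  have h1 : ∀ N : ℕ, (∑ k ∈ Finset.range N, g (T^[k] x)) / (N : ℝ) =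
      ∑ j ∈ Finset.range n, ((((Finset.range N).filter
        (fun k : ℕ => T^[k] x % (n : ℤ) = (j : ℤ))).card : ℝ) / (N : ℝ)) * g j := by
    intro N
    have e1 : ∀ k ∈ Finset.range N, g (T^[k] x) =
        ∑ j ∈ Finset.range n, if T^[k] x % (n : ℤ) = (j : ℤ) then g j else 0 := by
      intro k _
      rw [Finset.sum_eq_single (res n (T^[k] x))]
      · rw [if_pos (res_cast hn _).symm]
        apply periodic_congr g hg
        rw [res_cast hn]; exact (Int.mod_modEq _ _).symm
      · intro j _ hne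
        rw [if_neg]
        intro hcon; apply hne; exact ((res_eq_iff hn _ j).mpr hcon).symm
      · intro h; exact absurd (Finset.mem_range.mpr (res_lt hn _)) h
    rw [Finset.sum_congr rfl e1, Finset.sum_comm, Finset.sum_div]
    apply Finset.sum_congr rfl
    intro j _
    rw [← Finset.sum_filter, Finset.sum_const, nsmul_eq_mul]; ring
  have h2 : Tendsto (fun N : ℕ => ∑ j ∈ Finset.range n, ((((Finset.range N).filter
        (fun k : ℕ => T^[k] x % (n : ℤ) = (j : ℤ))).card : ℝ) / (N : ℝ)) * g j) atTop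
      (𝓝 (∑ j ∈ Finset.range n, (1 / (n : ℝ)) * g j)) := by
    apply tendsto_finsetSum
    intro j hj
    exact (hu j (Finset.mem_range.mp hj)).mul_const _
  have h3 : (∑ w ∈ Finset.range n, g w) / n = ∑ j ∈ Finset.range n, (1 / (n : ℝ)) * g j := by
    rw [Finset.sum_div]; apply Finset.sum_congr rfl; intro j _; ring
  rw [h3]
  exact h2.congr (fun N => (h1 N).symm)

lemma phi_bdd (m : ℕ) (f : ℕ → ℝ) (hm : 1 ≤ m) : ∃ B : ℝ, 0 < B ∧ ∀ z, |phi d m T f z| ≤ B := by
  classical
  have h1 : ∃ B1 : ℝ, ∀ i < m, |f i| ≤ B1 := by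
    refine ⟨∑ i ∈ Finset.range m, |f i|, fun i hi => ?_⟩
    exact Finset.single_le_sum (f := fun i => |f i|) (fun i _ => abs_nonneg _)
      (Finset.mem_range.mpr hi)
  have h2 : ∃ B2 : ℝ, ∀ i < m, |Pop d m T f i| ≤ B2 := by
    refine ⟨∑ i ∈ Finset.range m, |Pop d m T f i|, fun i hi => ?_⟩
    exact Finset.single_le_sum (f := fun i => |Pop d m T f i|) (fun i _ => abs_nonneg _)
      (Finset.mem_range.mpr hi)
  obtain ⟨B1, hB1⟩ := h1
  obtain ⟨B2, hB2⟩ := h2
  refine ⟨|B1| + |B2| + 1, by positivity, fun z => ?_⟩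
  unfold phi
  have e1 := hB1 _ (res_lt hm (T z))
  have e2 := hB2 _ (res_lt hm z)
  calc |f (res m (T z)) - Pop d m T f (res m z)|
      ≤ |f (res m (T z))| + |Pop d m T f (res m z)| := abs_sub _ _
    _ ≤ B1 + B2 := add_le_add e1 e2
    _ ≤ |B1| + |B2| + 1 := by linarith [le_abs_self B1, le_abs_self B2]

/-- If the trajectory is uniformly distributed modulo every power of `d`, the averages of the
martingale increments tend to `0`. -/
lemma avg_phi (hT : RPType d a b T) {m : ℕ} (hm : 1 ≤ m) (f : ℕ → ℝ) {x : ℤ}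
    (hu : ∀ L : ℕ, 1 ≤ L → UniformMod (d ^ L) T x) :
    Tendsto (fun N : ℕ => (∑ k ∈ Finset.range N, phi d m T f (T^[k] x)) / N) atTop (𝓝 0) := by
  obtain ⟨B, hBpos, hB⟩ := phi_bdd (d := d) (T := T) m f hm
  have hd : 2 ≤ d := hT.two_le
  rw [Metric.tendsto_atTop]
  intro ε hε
  -- choice of `L`
  obtain ⟨L, hL⟩ := exists_nat_gt ((m : ℝ) * B ^ 2 * 4 / ε ^ 2)
  have hLpos : 0 < L := by
    have : (0 : ℝ) < L := lt_of_le_of_lt (by positivity) hL
    exact_mod_cast this
  set Phi : ℤ → ℝ := fun z => ∑ t ∈ Finset.range L, phi d m T f (T^[t] z) with hPhi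
  set G : ℤ → ℝ := fun z => ∑ c ∈ Finset.range m, Phi (z + d ^ L * c) ^ 2 with hG
  have hPhiper : ∀ z y : ℤ, Phi (z + m * d ^ L * y) = Phi z := by
    intro z y
    simp only [hPhi]
    apply Finset.sum_congr rfl
    intro t ht
    exact hT.phi_iter_periodic m f t L (Finset.mem_range.mp ht) z y
  have hGper : ∀ z : ℤ, G (z + ((d ^ L : ℕ) : ℤ)) = G z := by
    intro z
    simp only [hG]
    have hp : ∀ w : ℤ, (fun y : ℤ => Phi (z + d ^ L * y) ^ 2) (w + m) =
        (fun y : ℤ => Phi (z + d ^ L * y) ^ 2) w := by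
      intro w
      show Phi (z + d ^ L * (w + m)) ^ 2 = Phi (z + d ^ L * w) ^ 2
      rw [show z + (d : ℤ) ^ L * (w + m) = (z + d ^ L * w) + m * d ^ L * 1 by ring, hPhiper]
    have hs := sum_shift hm (fun y : ℤ => Phi (z + d ^ L * y) ^ 2) hp 1
    rw [← hs]
    apply Finset.sum_congr rfl
    intro c _
    show Phi (z + ((d ^ L : ℕ) : ℤ) + d ^ L * c) ^ 2 = Phi (z + d ^ L * (1 + c)) ^ 2
    congr 2; push_cast; ring
  have hle : ∀ z : ℤ, Phi z ^ 2 ≤ G z := by
    intro z
    simp only [hG]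
    have := Finset.single_le_sum (f := fun c : ℕ => Phi (z + d ^ L * (c : ℤ)) ^ 2)
      (s := Finset.range m) (fun c _ => sq_nonneg _) (Finset.mem_range.mpr hm)
    simpa using this
  -- the mean of `G`
  have hGmean : (∑ w ∈ Finset.range (d ^ L), G w) / ((d ^ L : ℕ) : ℝ) ≤ L * m * B ^ 2 := by
    have hdL : (0 : ℝ) < ((d ^ L : ℕ) : ℝ) := by positivity
    rw [div_le_iff₀ hdL]
    have e1 : ∑ w ∈ Finset.range (d ^ L), G w =
        ∑ z ∈ Finset.range (m * d ^ L), Phi (z : ℤ) ^ 2 := by
      simp only [hG]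
      rw [Finset.sum_comm]
      have e2 : ∑ z ∈ Finset.range (m * d ^ L), Phi (z : ℤ) ^ 2 =
          ∑ c ∈ Finset.range m, ∑ w ∈ Finset.range (d ^ L), Phi ((w : ℤ) + d ^ L * c) ^ 2 := by
        rw [← Finset.sum_product']
        refine Finset.sum_nbij' (fun z => (z / d ^ L, z % d ^ L))
          (fun p => p.2 + d ^ L * p.1) ?_ ?_ ?_ ?_ ?_
        · intro z hz
          have hz' := Finset.mem_range.mp hz
          refine Finset.mem_product.mpr ⟨Finset.mem_range.mpr ?_, Finset.mem_range.mpr ?_⟩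
          · exact Nat.div_lt_of_lt_mul (by rw [mul_comm]; exact hz')
          · exact Nat.mod_lt _ (by positivity)
        · intro p hp
          have hp' := Finset.mem_product.mp hp
          have h1 := Finset.mem_range.mp hp'.1
          have h2 := Finset.mem_range.mp hp'.2
          refine Finset.mem_range.mpr ?_
          calc p.2 + d ^ L * p.1 < d ^ L + d ^ L * p.1 := by omega
            _ = (p.1 + 1) * d ^ L := by ring
            _ ≤ m * d ^ L := Nat.mul_le_mul_right _ h1
        · intro z _; exact Nat.mod_add_div z (d ^ L)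
        · intro p hp
          have hp' := Finset.mem_product.mp hp
          have h2 := Finset.mem_range.mp hp'.2
          have hpos : 0 < d ^ L := by positivity
          ext
          · show (p.2 + d ^ L * p.1) / d ^ L = p.1
            rw [Nat.add_mul_div_left _ _ hpos, Nat.div_eq_of_lt h2, zero_add]
          · show (p.2 + d ^ L * p.1) % d ^ L = p.2
            rw [Nat.add_mul_mod_self_left, Nat.mod_eq_of_lt h2]
        · intro z _
          have : (z : ℤ) = ((z % d ^ L : ℕ) : ℤ) + d ^ L * ((z / d ^ L : ℕ) : ℤ) := by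
            exact_mod_cast (Nat.mod_add_div z (d ^ L)).symm
          show Phi (z : ℤ) ^ 2 = Phi (((z % d ^ L : ℕ) : ℤ) + d ^ L * ((z / d ^ L : ℕ) : ℤ)) ^ 2
          rw [← this]
      rw [e2]
    rw [e1]
    have := hT.second_moment hm f L hB
    calc _ ≤ (L : ℝ) * ((m * d ^ L : ℕ) : ℝ) * B ^ 2 := this
      _ = L * m * B ^ 2 * ((d ^ L : ℕ) : ℝ) := by push_cast; ring
  have hlim := avg_periodic (T := T) (n := d ^ L) (Nat.one_le_pow _ _ (by omega)) (hu L hLpos) G hGper
  -- eventually the average of `G` is at most `L m B^2 + δ`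
  have hδ : (0 : ℝ) < L * m * B ^ 2 := by positivity
  have hev1 : ∀ᶠ N : ℕ in atTop, (∑ k ∈ Finset.range N, G (T^[k] x)) / (N : ℝ) <
      2 * (L * m * B ^ 2) := by
    apply hlim.eventually_lt_const
    linarith
  have hev2 : ∀ᶠ N : ℕ in atTop, 2 * L * B / (N : ℝ) < ε / 4 := by
    have : Tendsto (fun N : ℕ => 2 * L * B / (N : ℝ)) atTop (𝓝 0) :=
      tendsto_const_div_atTop_nhds_zero_nat _
    exact this.eventually_lt_const (by positivity)
  obtain ⟨N0, hN0⟩ := eventually_atTop.mp (hev1.and (hev2.and (eventually_ge_atTop 1)))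
  refine ⟨N0, fun N hN => ?_⟩
  obtain ⟨h1, h2, h3⟩ := hN0 N hN
  have hNpos : (0 : ℝ) < N := by exact_mod_cast h3
  rw [Real.dist_eq, sub_zero]
  set A := ∑ k ∈ Finset.range N, phi d m T f (T^[k] x) with hA
  -- compare with the windowed average
  have hwin : |(L : ℝ) * A - ∑ k ∈ Finset.range N, Phi (T^[k] x)| ≤ 2 * (L : ℝ) * B * L := by
    have e1 : ∑ k ∈ Finset.range N, Phi (T^[k] x) =
        ∑ t ∈ Finset.range L, ∑ k ∈ Finset.range N, phi d m T f (T^[k + t] x) := by
      simp only [hPhi]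
      rw [Finset.sum_comm]
      apply Finset.sum_congr rfl; intro t _
      apply Finset.sum_congr rfl; intro k _
      rw [← Function.iterate_add_apply, add_comm]
    have e2 : (L : ℝ) * A = ∑ t ∈ Finset.range L, A := by
      rw [Finset.sum_const, Finset.card_range, nsmul_eq_mul]
    rw [e1, e2, ← Finset.sum_sub_distrib]
    refine (Finset.abs_sum_le_sum_abs _ _).trans ?_
    have e3 : ∀ t ∈ Finset.range L, |A - ∑ k ∈ Finset.range N, phi d m T f (T^[k + t] x)| ≤
        2 * (L : ℝ) * B := by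
      intro t ht
      have ht' := Finset.mem_range.mp ht
      -- telescoping of the shifted sums
      have key : ∀ t : ℕ, |A - ∑ k ∈ Finset.range N, phi d m T f (T^[k + t] x)| ≤ 2 * t * B := by
        intro t
        induction t with
        | zero => simp [hA]
        | succ t ih =>
          have e4 : ∑ k ∈ Finset.range N, phi d m T f (T^[k + (t + 1)] x) =
              ∑ k ∈ Finset.range N, phi d m T f (T^[k + t] x) + phi d m T f (T^[N + t] x) -
                phi d m T f (T^[0 + t] x) := by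
            have e5 := Finset.sum_range_succ (fun k => phi d m T f (T^[k + t] x)) N
            have e6 := Finset.sum_range_succ' (fun k => phi d m T f (T^[k + t] x)) N
            have e7 : ∑ k ∈ Finset.range N, phi d m T f (T^[k + (t + 1)] x) =
                ∑ k ∈ Finset.range N, phi d m T f (T^[k + 1 + t] x) := by
              apply Finset.sum_congr rfl; intro k _; congr 2; ring
            rw [e7]; linarith
          rw [e4]
          have h5 := hB (T^[N + t] x)
          have h6 := hB (T^[0 + t] x)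
          rw [abs_le] at ih h5 h6 ⊢
          push_cast
          constructor <;> linarith [ih.1, ih.2, h5.1, h5.2, h6.1, h6.2]
      refine (key t).trans ?_
      have : (t : ℝ) ≤ L := by exact_mod_cast ht'.le
      nlinarith
    calc _ ≤ ∑ t ∈ Finset.range L, 2 * (L : ℝ) * B := Finset.sum_le_sum e3
      _ = _ := by rw [Finset.sum_const, Finset.card_range, nsmul_eq_mul]; ring
  -- Cauchy-Schwarz
  have hcs : (∑ k ∈ Finset.range N, Phi (T^[k] x)) ^ 2 ≤
      N * ∑ k ∈ Finset.range N, Phi (T^[k] x) ^ 2 := by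
    have := sq_sum_le_card_mul_sum_sq (s := Finset.range N) (f := fun k => Phi (T^[k] x))
    simpa using this
  have hS : ∑ k ∈ Finset.range N, Phi (T^[k] x) ^ 2 ≤ N * (2 * (L * m * B ^ 2)) := by
    have e1 : ∑ k ∈ Finset.range N, Phi (T^[k] x) ^ 2 ≤ ∑ k ∈ Finset.range N, G (T^[k] x) :=
      Finset.sum_le_sum (fun k _ => hle _)
    rw [div_lt_iff₀ hNpos] at h1
    linarith
  have hLr : (0 : ℝ) < L := by exact_mod_cast hLpos
  have hS2 : (∑ k ∈ Finset.range N, Phi (T^[k] x)) ^ 2 ≤ ((N : ℝ) * L * (3 * ε / 4)) ^ 2 := by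
    have e1 : (m : ℝ) * B ^ 2 * 4 < L * ε ^ 2 := by
      rw [div_lt_iff₀ (by positivity)] at hL; linarith
    calc _ ≤ (N : ℝ) * (N * (2 * (L * m * B ^ 2))) := by
          refine hcs.trans (mul_le_mul_of_nonneg_left hS hNpos.le)
      _ = (N : ℝ) ^ 2 * L * (m * B ^ 2 * 4) / 2 := by ring
      _ ≤ (N : ℝ) ^ 2 * L * (L * ε ^ 2) / 2 := by
          have : 0 ≤ (N : ℝ) ^ 2 * L := by positivity
          nlinarith
      _ ≤ ((N : ℝ) * L * (3 * ε / 4)) ^ 2 := by
          have : 0 ≤ ((N : ℝ) * L * ε) ^ 2 := by positivity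
          nlinarith
  have habs : |∑ k ∈ Finset.range N, Phi (T^[k] x)| ≤ (N : ℝ) * L * (3 * ε / 4) :=
    abs_le_of_sq_le_sq hS2 (by positivity)
  have hfin : (L : ℝ) * |A| < L * (N * ε) := by
    have e1 : |(L : ℝ) * A| ≤ |(L : ℝ) * A - ∑ k ∈ Finset.range N, Phi (T^[k] x)| +
        |∑ k ∈ Finset.range N, Phi (T^[k] x)| := by
      have := abs_add_le ((L : ℝ) * A - ∑ k ∈ Finset.range N, Phi (T^[k] x))
        (∑ k ∈ Finset.range N, Phi (T^[k] x))
      simpa using this
    rw [abs_mul, abs_of_pos hLr] at e1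
    rw [div_lt_iff₀ hNpos] at h2
    have e2 : 2 * (L : ℝ) * B * L < L * (ε / 4 * N) := by nlinarith
    nlinarith
  have hA2 : |A| < N * ε := lt_of_mul_lt_mul_left hfin hLr.le
  rw [abs_div, abs_of_pos hNpos, div_lt_iff₀ hNpos]
  linarith

end RPType

end Pool.Agent.Lib.MP_b75863_nt
end

section

set_option autoImplicit false
open Filter Topology

namespace Pool.Agent.Lib.MP_b75863_nt

section chain

variable {m : ℕ} {Q : ℕ → ℕ → ℝ}

/-- one allowed transition -/
def Edge (m : ℕ) (Q : ℕ → ℕ → ℝ) (u v : ℕ) : Prop := u < m ∧ v < m ∧ 0 < Q u v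

lemma pos_of_reach {p : ℕ → ℝ} (hp0 : ∀ i < m, 0 ≤ p i) (hQ0 : ∀ i < m, ∀ j < m, 0 ≤ Q i j)
    (hst : ∀ j < m, p j = ∑ i ∈ Finset.range m, p i * Q i j) {i j : ℕ} (hi : 0 < p i)
    (h : Relation.ReflTransGen (Edge m Q) i j) : 0 < p j := by
  induction h with
  | refl => exact hi
  | tail _ he ih =>
    obtain ⟨h1, h2, h3⟩ := he
    rename_i u v _
    rw [hst v h2]
    calc 0 < p u * Q u v := mul_pos ih h3
      _ ≤ ∑ i ∈ Finset.range m, p i * Q i v :=
        Finset.single_le_sum (f := fun i => p i * Q i v)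
          (fun i hi => mul_nonneg (hp0 i (Finset.mem_range.mp hi))
            (hQ0 i (Finset.mem_range.mp hi) v h2)) (Finset.mem_range.mpr h1)

/-- States charged by a stationary distribution are recurrent. -/
lemma recur {p : ℕ → ℝ} (hp0 : ∀ i < m, 0 ≤ p i) (hQ0 : ∀ i < m, ∀ j < m, 0 ≤ Q i j)
    (hQ1 : ∀ i < m, ∑ j ∈ Finset.range m, Q i j = 1)
    (hst : ∀ j < m, p j = ∑ i ∈ Finset.range m, p i * Q i j) {i0 j0 : ℕ} (hi0 : i0 < m)
    (hpi : 0 < p i0) (h : Relation.ReflTransGen (Edge m Q) i0 j0) :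
    Relation.ReflTransGen (Edge m Q) j0 i0 := by
  classical
  by_contra hcon
  -- a crossing edge
  have hcross : ∀ k, Relation.ReflTransGen (Edge m Q) i0 k →
      Relation.ReflTransGen (Edge m Q) j0 k →
      ∃ u v, Relation.ReflTransGen (Edge m Q) i0 u ∧ ¬ Relation.ReflTransGen (Edge m Q) j0 u ∧
        Edge m Q u v ∧ Relation.ReflTransGen (Edge m Q) j0 v := by
    intro k hk
    induction hk with
    | refl => intro h1; exact absurd h1 hcon
    | tail h1 he ih =>
      rename_i u v
      intro h2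
      by_cases h3 : Relation.ReflTransGen (Edge m Q) j0 u
      · exact ih h3
      · exact ⟨u, v, h1, h3, he, h2⟩
  obtain ⟨u, v, hiu, hju, huv, hjv⟩ := hcross j0 h Relation.ReflTransGen.refl
  have hpu : 0 < p u := pos_of_reach hp0 hQ0 hst hpi hiu
  obtain ⟨hum, hvm, hquv⟩ := huv
  let R : Finset ℕ := (Finset.range m).filter (fun k => Relation.ReflTransGen (Edge m Q) j0 k)
  have hvR : v ∈ R := Finset.mem_filter.mpr ⟨Finset.mem_range.mpr hvm, hjv⟩
  have huR : u ∉ R := fun h => hju (Finset.mem_filter.mp h).2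
  have hRm : ∀ k ∈ R, k < m := fun k hk => Finset.mem_range.mp (Finset.mem_filter.mp hk).1
  have hclosed : ∀ i ∈ R, ∑ j ∈ R, Q i j = 1 := by
    intro i hi
    rw [← hQ1 i (hRm i hi)]
    apply Finset.sum_subset (Finset.filter_subset _ _)
    intro j hj hjR
    by_contra hne
    have hjm := Finset.mem_range.mp hj
    have hpos : 0 < Q i j := lt_of_le_of_ne (hQ0 i (hRm i hi) j hjm) (Ne.symm hne)
    apply hjR
    exact Finset.mem_filter.mpr ⟨hj, ((Finset.mem_filter.mp hi).2).tail ⟨hRm i hi, hjm, hpos⟩⟩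
  have h1 : ∑ j ∈ R, p j = ∑ i ∈ Finset.range m, p i * ∑ j ∈ R, Q i j := by
    rw [Finset.sum_congr rfl (fun j hj => hst j (hRm j hj)), Finset.sum_comm]
    apply Finset.sum_congr rfl; intro i _; rw [Finset.mul_sum]
  have hnn : ∀ i ∈ Finset.range m, 0 ≤ p i * ∑ j ∈ R, Q i j := by
    intro i hi
    have him := Finset.mem_range.mp hi
    exact mul_nonneg (hp0 i him) (Finset.sum_nonneg (fun j hj => hQ0 i him j (hRm j hj)))
  have h2 : ∑ i ∈ insert u R, p i * ∑ j ∈ R, Q i j ≤
      ∑ i ∈ Finset.range m, p i * ∑ j ∈ R, Q i j := by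
    apply Finset.sum_le_sum_of_subset_of_nonneg
    · intro i hi
      rcases Finset.mem_insert.mp hi with h | h
      · rw [h]; exact Finset.mem_range.mpr hum
      · exact (Finset.mem_filter.mp h).1
    · intro i hi _; exact hnn i hi
  rw [Finset.sum_insert huR] at h2
  have h3 : ∑ i ∈ R, p i * ∑ j ∈ R, Q i j = ∑ i ∈ R, p i := by
    apply Finset.sum_congr rfl; intro i hi; rw [hclosed i hi, mul_one]
  have h4 : 0 < p u * ∑ j ∈ R, Q u j := by
    apply mul_pos hpu
    calc 0 < Q u v := hquv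
      _ ≤ ∑ j ∈ R, Q u j := Finset.single_le_sum (f := fun j => Q u j)
        (fun j hj => hQ0 u hum j (hRm j hj)) hvR
  rw [h3, ← h1] at h2
  linarith

/-- Uniqueness of the stationary distribution on a closed communicating class. -/
lemma uniq {C : Finset ℕ} (hC : C.Nonempty) (hCm : C ⊆ Finset.range m)
    (hQ0 : ∀ i < m, ∀ j < m, 0 ≤ Q i j) (hQ1 : ∀ i < m, ∑ j ∈ Finset.range m, Q i j = 1)
    (hirr : ∀ i ∈ C, ∀ j ∈ C, Relation.ReflTransGen (Edge m Q) i j)
    (hcl : ∀ i ∈ C, ∀ j < m, 0 < Q i j → j ∈ C)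
    {δ : ℕ → ℝ} (hst : ∀ j ∈ C, δ j = ∑ i ∈ C, δ i * Q i j) (hsum : ∑ j ∈ C, δ j = 0) :
    ∀ j ∈ C, δ j = 0 := by
  have hm : ∀ i ∈ C, i < m := fun i hi => Finset.mem_range.mp (hCm hi)
  have hrow : ∀ i ∈ C, ∑ j ∈ C, Q i j = 1 := by
    intro i hi
    rw [← hQ1 i (hm i hi)]
    apply Finset.sum_subset hCm
    intro j hj hjC
    by_contra hne
    have hjm := Finset.mem_range.mp hj
    exact hjC (hcl i hi j hjm (lt_of_le_of_ne (hQ0 i (hm i hi) j hjm) (Ne.symm hne)))
  have habs : ∀ j ∈ C, |δ j| ≤ ∑ i ∈ C, |δ i| * Q i j := by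
    intro j hj
    rw [hst j hj]
    refine (Finset.abs_sum_le_sum_abs _ _).trans (le_of_eq ?_)
    apply Finset.sum_congr rfl; intro i hi
    rw [abs_mul, abs_of_nonneg (hQ0 i (hm i hi) j (hm j hj))]
  have htot : ∑ j ∈ C, ∑ i ∈ C, |δ i| * Q i j = ∑ j ∈ C, |δ j| := by
    rw [Finset.sum_comm]
    apply Finset.sum_congr rfl; intro i hi
    rw [← Finset.mul_sum, hrow i hi, mul_one]
  have heq : ∀ j ∈ C, |δ j| = ∑ i ∈ C, |δ i| * Q i j := by
    intro j hj
    by_contra hne
    have hlt : |δ j| < ∑ i ∈ C, |δ i| * Q i j := lt_of_le_of_ne (habs j hj) hne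
    have := Finset.sum_lt_sum habs ⟨j, hj, hlt⟩
    rw [htot] at this
    exact lt_irrefl _ this
  have hs : ∀ j ∈ C, |δ j| + δ j = ∑ i ∈ C, (|δ i| + δ i) * Q i j := by
    intro j hj
    conv_lhs => rw [heq j hj, hst j hj]
    rw [← Finset.sum_add_distrib]
    apply Finset.sum_congr rfl; intro i _; ring
  have hs0 : ∀ j, 0 ≤ |δ j| + δ j := fun j => by linarith [neg_abs_le (δ j)]
  -- propagation of positivity
  have hprop : ∀ i ∈ C, 0 < |δ i| + δ i → ∀ j, Relation.ReflTransGen (Edge m Q) i j →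
      j ∈ C ∧ 0 < |δ j| + δ j := by
    intro i hi hpos j h
    induction h with
    | refl => exact ⟨hi, hpos⟩
    | tail _ he ih =>
      rename_i u v _
      obtain ⟨huC, hupos⟩ := ih
      obtain ⟨h1, h2, h3⟩ := he
      have hvC := hcl u huC v h2 h3
      refine ⟨hvC, ?_⟩
      rw [hs v hvC]
      calc 0 < (|δ u| + δ u) * Q u v := mul_pos hupos h3
        _ ≤ ∑ i ∈ C, (|δ i| + δ i) * Q i v :=
          Finset.single_le_sum (f := fun i => (|δ i| + δ i) * Q i v)
            (fun i hi => mul_nonneg (hs0 i) (hQ0 i (hm i hi) v h2)) huC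
  have hneg : ∀ j ∈ C, δ j ≤ 0 := by
    intro j hj
    by_contra hcon
    push Not at hcon
    have hpos : 0 < |δ j| + δ j := by have := abs_nonneg (δ j); linarith
    have hall : ∀ k ∈ C, 0 < δ k := by
      intro k hk
      have h1 := (hprop j hj hpos k (hirr j hj k hk)).2
      by_contra h2
      push Not at h2
      rw [abs_of_nonpos h2] at h1
      linarith
    have := Finset.sum_pos hall hC
    linarith
  intro j hj
  by_contra hne
  have hlt : δ j < 0 := lt_of_le_of_ne (hneg j hj) hne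
  have := Finset.sum_lt_sum hneg ⟨j, hj, hlt⟩
  simp [hsum] at this

end chain

section assembly

variable {d : ℕ} {a b : ℕ → ℤ} {T : ℤ → ℤ}

lemma q_nonneg (m i j : ℕ) : 0 ≤ q d m T i j := by unfold q; positivity

lemma q_row (hT : RPType d a b T) {m : ℕ} {i : ℕ} (hi : i < m) :
    ∑ j ∈ Finset.range m, q d m T i j = 1 := by
  have hm : 1 ≤ m := by omega
  have hd : 2 ≤ d := hT.two_le
  have h := hT.avg hm (fun _ => (1 : ℝ)) (i : ℤ)
  rw [res_natCast hi] at h
  simp only [mul_one, Finset.sum_const, Finset.card_range, nsmul_eq_mul] at h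
  have hd0 : (d : ℝ) ≠ 0 := by positivity
  field_simp at h
  linarith

/-- the chain has an edge along every step of `T` -/
lemma edge_step (hT : RPType d a b T) {m : ℕ} (hm : 1 ≤ m) (z : ℤ) :
    Edge m (q d m T) (res m z) (res m (T z)) := by
  refine ⟨res_lt hm _, res_lt hm _, ?_⟩
  have hd : 2 ≤ d := hT.two_le
  have h := hT.avg hm (fun j => if j = res m (T z) then (1 : ℝ) else 0) z
  simp only [mul_ite, mul_one, mul_zero, Finset.sum_ite_eq', Finset.mem_range, res_lt hm,
    if_true] at h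
  have h1 : (1 : ℝ) ≤ ∑ h ∈ Finset.range d,
      if res m (T (z + m * h)) = res m (T z) then (1 : ℝ) else 0 := by
    have h2 := Finset.single_le_sum
      (f := fun h : ℕ => if res m (T (z + m * (h : ℤ))) = res m (T z) then (1 : ℝ) else 0)
      (s := Finset.range d) (fun i _ => by positivity) (Finset.mem_range.mpr (by omega : 0 < d))
    simpa using h2
  rw [h] at h1
  have hd0 : (0 : ℝ) < d := by positivity
  by_contra hcon
  push Not at hcon
  have : (d : ℝ) * q d m T (res m z) (res m (T z)) ≤ 0 :=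
    mul_nonpos_of_nonneg_of_nonpos hd0.le hcon
  linarith

/-- empirical frequency -/
noncomputable def pN (m : ℕ) (T : ℤ → ℤ) (x : ℤ) (N j : ℕ) : ℝ :=
  (((Finset.range N).filter (fun k : ℕ => T^[k] x % (m : ℤ) = (j : ℤ))).card : ℝ) / (N : ℝ)

lemma pN_mem (m : ℕ) (x : ℤ) (N j : ℕ) : pN m T x N j ∈ Set.Icc (0 : ℝ) 1 := by
  unfold pN
  constructor
  · positivity
  · rcases Nat.eq_zero_or_pos N with h | h
    · subst h; simp
    · rw [div_le_one (by exact_mod_cast h)]
      have := Finset.card_filter_le (Finset.range N) (fun k : ℕ => T^[k] x % (m : ℤ) = (j : ℤ))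
      rw [Finset.card_range] at this
      exact_mod_cast this

lemma pN_sum {m : ℕ} (hm : 1 ≤ m) (x : ℤ) (N : ℕ) (f : ℕ → ℝ) :
    ∑ j ∈ Finset.range m, pN m T x N j * f j =
      (∑ k ∈ Finset.range N, f (res m (T^[k] x))) / N := by
  have e1 : ∀ k ∈ Finset.range N, f (res m (T^[k] x)) =
      ∑ j ∈ Finset.range m, if T^[k] x % (m : ℤ) = (j : ℤ) then f j else 0 := by
    intro k _
    rw [Finset.sum_eq_single (res m (T^[k] x))]
    · rw [if_pos (res_cast hm _).symm]
    · intro j _ hne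
      rw [if_neg]
      intro hcon; apply hne; exact ((res_eq_iff hm _ j).mpr hcon).symm
    · intro h; exact absurd (Finset.mem_range.mpr (res_lt hm _)) h
  rw [Finset.sum_congr rfl e1, Finset.sum_comm, Finset.sum_div]
  apply Finset.sum_congr rfl
  intro j _
  rw [← Finset.sum_filter, Finset.sum_const, nsmul_eq_mul]
  unfold pN; ring

/-- Every limit of the empirical frequencies is stationary. -/
lemma limit_stationary (hT : RPType d a b T) {m : ℕ} (hm : 1 ≤ m) {x : ℤ}
    (hu : ∀ L : ℕ, 1 ≤ L → UniformMod (d ^ L) T x) (U : Ultrafilter ℕ) (hU : (U : Filter ℕ) ≤ atTop) :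
    ∃ p : ℕ → ℝ, (∀ j, Tendsto (fun N => pN m T x N j) U (𝓝 (p j))) ∧ (∀ j < m, 0 ≤ p j) ∧
      (∑ j ∈ Finset.range m, p j = 1) ∧
      ∀ j < m, p j = ∑ i ∈ Finset.range m, p i * q d m T i j := by
  have hex : ∀ j, ∃ y ∈ Set.Icc (0 : ℝ) 1, Tendsto (fun N => pN m T x N j) U (𝓝 y) := by
    intro j
    have h1 : Set.Icc (0 : ℝ) 1 ∈ U.map (fun N => pN m T x N j) := by
      rw [Ultrafilter.mem_map]
      apply Filter.univ_mem'
      intro N; exact pN_mem m x N j
    obtain ⟨y, hy, hle⟩ := isCompact_Icc.ultrafilter_le_nhds' (U.map (fun N => pN m T x N j)) h1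
    exact ⟨y, hy, hle⟩
  choose p hp1 hp2 using hex
  refine ⟨p, hp2, fun j _ => (hp1 j).1, ?_, ?_⟩
  · have h1 : Tendsto (fun N => ∑ j ∈ Finset.range m, pN m T x N j) U
        (𝓝 (∑ j ∈ Finset.range m, p j)) := tendsto_finsetSum _ (fun j _ => hp2 j)
    have h2 : Tendsto (fun N => ∑ j ∈ Finset.range m, pN m T x N j) U (𝓝 1) := by
      apply Tendsto.mono_left _ hU
      apply tendsto_const_nhds.congr'
      filter_upwards [eventually_ge_atTop 1] with N hN
      have := pN_sum (T := T) hm x N (fun _ => (1 : ℝ))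
      simp only [mul_one, Finset.sum_const, Finset.card_range, nsmul_eq_mul] at this
      rw [this]
      have : (N : ℝ) ≠ 0 := by positivity
      field_simp
    exact tendsto_nhds_unique h1 h2
  · intro j hj
    have h1 : Tendsto (fun N => pN m T x N j - ∑ i ∈ Finset.range m, pN m T x N i * q d m T i j) U
        (𝓝 (p j - ∑ i ∈ Finset.range m, p i * q d m T i j)) :=
      (hp2 j).sub (tendsto_finsetSum _ (fun i _ => (hp2 i).mul_const _))
    have h2 : Tendsto (fun N => pN m T x N j - ∑ i ∈ Finset.range m, pN m T x N i * q d m T i j) U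
        (𝓝 0) := by
      apply Tendsto.mono_left _ hU
      set f : ℕ → ℝ := fun k => if k = j then 1 else 0 with hf
      have h3 := hT.avg_phi hm f hu
      -- relate the two
      have h4 : ∀ N : ℕ, pN m T x N j - ∑ i ∈ Finset.range m, pN m T x N i * q d m T i j =
          (∑ k ∈ Finset.range N, phi d m T f (T^[k] x)) / N +
            (f (res m (T^[0] x)) - f (res m (T^[N] x))) / N := by
        intro N
        have e1 := pN_sum (T := T) hm x N f
        have e2 := pN_sum (T := T) hm x N (Pop d m T f)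
        have e3 : ∑ i ∈ Finset.range m, pN m T x N i * f i = pN m T x N j := by
          simp only [hf, mul_ite, mul_one, mul_zero]
          rw [Finset.sum_ite_eq', if_pos (Finset.mem_range.mpr hj)]
        have e4 : ∀ i, Pop d m T f i = q d m T i j := by
          intro i
          unfold Pop
          simp only [hf, mul_ite, mul_one, mul_zero]
          rw [Finset.sum_ite_eq', if_pos (Finset.mem_range.mpr hj)]
        have e5 : ∑ i ∈ Finset.range m, pN m T x N i * q d m T i j =
            (∑ k ∈ Finset.range N, Pop d m T f (res m (T^[k] x))) / N := by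
          rw [← e2]; apply Finset.sum_congr rfl; intro i _; rw [e4]
        rw [e5, ← e3, e1, ← sub_div, ← add_div]
        congr 1
        have e6 : ∑ k ∈ Finset.range N, phi d m T f (T^[k] x) =
            ∑ k ∈ Finset.range N, f (res m (T^[k + 1] x)) -
              ∑ k ∈ Finset.range N, Pop d m T f (res m (T^[k] x)) := by
          rw [← Finset.sum_sub_distrib]
          apply Finset.sum_congr rfl; intro k _
          unfold phi; rw [Function.iterate_succ_apply' T k]
        have e7 := Finset.sum_range_succ (fun k => f (res m (T^[k] x))) N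
        have e8 := Finset.sum_range_succ' (fun k => f (res m (T^[k] x))) N
        rw [e6]; linarith
      have h5 : Tendsto (fun N : ℕ => (f (res m (T^[0] x)) - f (res m (T^[N] x))) / (N : ℝ)) atTop
          (𝓝 0) := by
        apply squeeze_zero_norm (a := fun N : ℕ => 2 / (N : ℝ))
        · intro N
          rw [norm_div, Real.norm_natCast]
          apply div_le_div_of_nonneg_right _ (Nat.cast_nonneg N)
          have hb : ∀ k, |f k| ≤ 1 := by
            intro k; simp only [hf]; split_ifs <;> simp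
          calc ‖f (res m (T^[0] x)) - f (res m (T^[N] x))‖
              ≤ |f (res m (T^[0] x))| + |f (res m (T^[N] x))| := abs_sub _ _
            _ ≤ 2 := by linarith [hb (res m (T^[0] x)), hb (res m (T^[N] x))]
        · exact tendsto_const_div_atTop_nhds_zero_nat 2
      have h6 := h3.add h5
      rw [add_zero] at h6
      exact h6.congr (fun N => (h4 N).symm)
    have := tendsto_nhds_unique h1 h2
    linarith

/-- Uniform distribution modulo all powers of `d` implies the conclusion for every modulus. -/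
theorem markov_of_uniform (hT : RPType d a b T) {x : ℤ}
    (hu : ∀ L : ℕ, 1 ≤ L → UniformMod (d ^ L) T x) {m : ℕ} (hm : 1 ≤ m) :
    MarkovFrequencies d m T x := by
  classical
  have hQ0 : ∀ i < m, ∀ j < m, 0 ≤ q d m T i j := fun i _ j _ => q_nonneg m i j
  have hQ1 : ∀ i < m, ∑ j ∈ Finset.range m, q d m T i j = 1 := fun i hi => q_row hT hi
  -- one limit point
  obtain ⟨p, hp1, hp2, hp3, hp4⟩ := limit_stationary hT hm hu (Ultrafilter.of atTop)
    (Ultrafilter.of_le atTop)
  -- a charged state that is visited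
  obtain ⟨i0, hi0, hpi0⟩ : ∃ i < m, 0 < p i := by
    by_contra hcon
    push Not at hcon
    have : ∑ j ∈ Finset.range m, p j = 0 := by
      apply Finset.sum_eq_zero; intro i hi
      have him := Finset.mem_range.mp hi
      exact le_antisymm (hcon i him) (hp2 i him)
    linarith
  obtain ⟨K, hK⟩ : ∃ K : ℕ, res m (T^[K] x) = i0 := by
    by_contra hcon
    push Not at hcon
    have hz : ∀ N, pN m T x N i0 = 0 := by
      intro N
      unfold pN
      rw [Finset.filter_false_of_mem]
      · simp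
      · intro k _ h
        exact hcon k ((res_eq_iff hm _ _).mpr h)
    have h1 : Tendsto (fun N => pN m T x N i0) ((Ultrafilter.of (atTop : Filter ℕ) : Ultrafilter ℕ) : Filter ℕ) (𝓝 0) := by
      simp only [hz]; exact tendsto_const_nhds
    have := tendsto_nhds_unique (hp1 i0) h1
    linarith
  -- the class of `i0`
  let C : Finset ℕ := (Finset.range m).filter
    (fun j => Relation.ReflTransGen (Edge m (q d m T)) i0 j)
  have hCm : C ⊆ Finset.range m := Finset.filter_subset _ _
  have hi0C : i0 ∈ C := Finset.mem_filter.mpr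
    ⟨Finset.mem_range.mpr hi0, Relation.ReflTransGen.refl⟩
  have hCne : C.Nonempty := ⟨i0, hi0C⟩
  have hirr : ∀ i ∈ C, ∀ j ∈ C, Relation.ReflTransGen (Edge m (q d m T)) i j := by
    intro i hi j hj
    have h1 := (Finset.mem_filter.mp hi).2
    have h2 := (Finset.mem_filter.mp hj).2
    exact (recur hp2 hQ0 hQ1 hp4 hi0 hpi0 h1).trans h2
  have hcl : ∀ i ∈ C, ∀ j < m, 0 < q d m T i j → j ∈ C := by
    intro i hi j hj hq
    have h1 := (Finset.mem_filter.mp hi).2
    exact Finset.mem_filter.mpr ⟨Finset.mem_range.mpr hj,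
      h1.tail ⟨Finset.mem_range.mp (hCm hi), hj, hq⟩⟩
  -- the trajectory stays in `C`
  have hstay : ∀ k ≥ K, res m (T^[k] x) ∈ C := by
    intro k hk
    induction k, hk using Nat.le_induction with
    | base => rw [hK]; exact hi0C
    | succ k _ ih =>
      rw [Function.iterate_succ_apply']
      obtain ⟨_, h2, h3⟩ := edge_step hT hm (T^[k] x)
      exact hcl _ ih _ h2 h3
  -- limit points vanish off `C`
  have hoff : ∀ j, j ∉ C → Tendsto (fun N => pN m T x N j) atTop (𝓝 0) := by
    intro j hj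
    apply squeeze_zero (g := fun N : ℕ => (K : ℝ) / (N : ℝ)) (fun N => (pN_mem m x N j).1)
    · intro N
      unfold pN
      apply div_le_div_of_nonneg_right _ (Nat.cast_nonneg N)
      have : ((Finset.range N).filter (fun k : ℕ => T^[k] x % (m : ℤ) = (j : ℤ))) ⊆
          Finset.range K := by
        intro k hk
        rw [Finset.mem_range]
        by_contra hcon
        push Not at hcon
        apply hj
        rw [← (res_eq_iff hm _ _).mpr (Finset.mem_filter.mp hk).2]
        exact hstay k hcon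
      have h2 := Finset.card_le_card this
      rw [Finset.card_range] at h2
      exact_mod_cast h2
    · exact tendsto_const_div_atTop_nhds_zero_nat _
  have hlimC : ∀ (U : Ultrafilter ℕ), (U : Filter ℕ) ≤ atTop → ∀ p : ℕ → ℝ,
      (∀ j, Tendsto (fun N => pN m T x N j) U (𝓝 (p j))) → ∀ j, j ∉ C → p j = 0 := by
    intro U hU p' hp' j hj
    exact tendsto_nhds_unique (hp' j) ((hoff j hj).mono_left hU)
  have hp0 := hlimC _ (Ultrafilter.of_le atTop) p hp1
  -- sums over `C`
  have hsumC : ∀ g : ℕ → ℝ, (∀ j, j ∉ C → g j = 0) →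
      ∑ j ∈ Finset.range m, g j = ∑ j ∈ C, g j := by
    intro g hg
    exact (Finset.sum_subset hCm (fun j _ hj => hg j hj)).symm
  refine ⟨C, ⟨hCne, hCm, hirr, hcl⟩, p, ?_, ?_, ?_, ⟨K, hstay⟩, ?_⟩
  · intro j hj
    exact pos_of_reach hp2 hQ0 hp4 hpi0 (Finset.mem_filter.mp hj).2
  · rw [← hsumC p hp0, hp3]
  · intro j hj
    rw [hp4 j (Finset.mem_range.mp (hCm hj))]
    exact hsumC (fun i => p i * q d m T i j) (fun i hi => by simp [hp0 i hi])
  · intro j hj
    show Tendsto (fun N => pN m T x N j) atTop (𝓝 (p j))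
    rw [tendsto_iff_ultrafilter]
    intro U hU
    obtain ⟨p', h1, h2, h3, h4⟩ := limit_stationary hT hm hu U hU
    have hp'0 := hlimC U hU p' h1
    have hdiff := uniq (δ := fun j => p' j - p j) hCne hCm hQ0 hQ1 hirr hcl (by
      intro j hj
      have hjm := Finset.mem_range.mp (hCm hj)
      show p' j - p j = _
      rw [h4 j hjm, hp4 j hjm,
        hsumC (fun i => p' i * q d m T i j) (fun i hi => by simp [hp'0 i hi]),
        hsumC (fun i => p i * q d m T i j) (fun i hi => by simp [hp0 i hi]),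
        ← Finset.sum_sub_distrib]
      apply Finset.sum_congr rfl; intro i _; ring) (by
      show ∑ j ∈ C, (p' j - p j) = 0
      rw [Finset.sum_sub_distrib, ← hsumC p' hp'0, ← hsumC p hp0, h3, hp3, sub_self])
    have h5 : p' j = p j := by have := hdiff j hj; linarith
    rw [← h5]
    exact h1 j

end assembly

end Pool.Agent.Lib.MP_b75863_nt
end
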