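import Mathlib

set_option autoImplicit false
open Filter Topology

namespace Pool.Agent.Lib.MP_b75863_nt

/-- `T` is the generalized Collatz mapping of modulus `d` given by `T x = (a i * x - b i) / d` for
`x ≡ i (mod d)`, and it is of relatively prime type. -/
structure RPType (d : ℕ) (a b : ℕ → ℤ) (T : ℤ → ℤ) : Prop where
  two_le : 2 ≤ d
  coprime : ∀ i < d, IsCoprime (a i) (d : ℤ)
  dvd : ∀ i < d, (d : ℤ) ∣ a i * (i : ℤ) - b i
  eq : ∀ n : ℤ, T n = (a (n % (d : ℤ)).toNat * n - b (n % (d : ℤ)).toNat) / (d : ℤ)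

/-- The entry `q_{ij}(m)` of the matrix `Q_T(m)`: `m` times the density of
`B(i,m) ∩ T⁻¹ B(j,m)`, a union of residue classes modulo `m * d`. -/
noncomputable def q (d m : ℕ) (T : ℤ → ℤ) (i j : ℕ) : ℝ :=
  (((Finset.range (m * d)).filter (fun k : ℕ =>
    (k : ℤ) % (m : ℤ) = (i : ℤ) ∧ T (k : ℤ) % (m : ℤ) = (j : ℤ))).card : ℝ) / (d : ℝ)

/-- `Closed d m T C`: the set `C` of residues modulo `m` is a closed communicating
(i.e. positive recurrent) class of the chain `Q_T(m)`. -/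
def ClosedClass (d m : ℕ) (T : ℤ → ℤ) (C : Finset ℕ) : Prop :=
  C.Nonempty ∧ C ⊆ Finset.range m ∧
    (∀ i ∈ C, ∀ j ∈ C,
      Relation.ReflTransGen (fun u v : ℕ => u < m ∧ v < m ∧ 0 < q d m T u v) i j) ∧
    (∀ i ∈ C, ∀ j < m, 0 < q d m T i j → j ∈ C)

/-- The conclusion of the conjecture for the map `T`, the starting point `x` and the modulus `m`:
the trajectory is eventually inside one closed communicating class `C` of `Q_T(m)` and visits each
state of `C` with limiting frequency given by the (positive) stationary distribution of `C`. -/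
def MarkovFrequencies (d m : ℕ) (T : ℤ → ℤ) (x : ℤ) : Prop :=
  ∃ C : Finset ℕ, ClosedClass d m T C ∧
    ∃ π : ℕ → ℝ, (∀ j ∈ C, 0 < π j) ∧ (∑ j ∈ C, π j) = 1 ∧
      (∀ j ∈ C, π j = ∑ i ∈ C, π i * q d m T i j) ∧
      (∃ K : ℕ, ∀ k ≥ K, (T^[k] x % (m : ℤ)).toNat ∈ C) ∧
      ∀ j ∈ C, Tendsto (fun N : ℕ =>
        (((Finset.range N).filter (fun k : ℕ => T^[k] x % (m : ℤ) = (j : ℤ))).card : ℝ) / (N : ℝ))
        atTop (𝓝 (π j))

/-- The trajectory of `x` under `T` is uniformly distributed modulo `n`. -/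
def UniformMod (n : ℕ) (T : ℤ → ℤ) (x : ℤ) : Prop :=
  ∀ j < n, Tendsto (fun N : ℕ =>
    (((Finset.range N).filter (fun k : ℕ => T^[k] x % (n : ℤ) = (j : ℤ))).card : ℝ) / (N : ℝ))
    atTop (𝓝 (1 / (n : ℝ)))

end Pool.Agent.Lib.MP_b75863_nt
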