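import Pool.Agent.Lib.MP_b75863_nt.Chain

set_option autoImplicit false
open Filter Topology

namespace Pool.Agent.Lib.MP_b75863_nt

section chain

variable {m : ℕ} {Q : ℕ → ℕ → ℝ}

/-- If the laws `p N` of a chain charge the state `i0` by at least `c > 0` at all late times, then
`i0` is recurrent. -/
lemma recur_of_charged {p : ℕ → ℕ → ℝ} (hp0 : ∀ N, ∀ i < m, 0 ≤ p N i)
    (hp1 : ∀ N, ∑ i ∈ Finset.range m, p N i = 1)
    (hQ0 : ∀ i < m, ∀ j < m, 0 ≤ Q i j)
    (hQ1 : ∀ i < m, ∑ j ∈ Finset.range m, Q i j = 1)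
    (hst : ∀ N, ∀ j < m, p (N + 1) j = ∑ i ∈ Finset.range m, p N i * Q i j) {i0 j0 : ℕ}
    {c : ℝ} (hc : 0 < c) {N0 : ℕ} (hch : ∀ N ≥ N0, c ≤ p N i0)
    (h : Relation.ReflTransGen (Edge m Q) i0 j0) :
    Relation.ReflTransGen (Edge m Q) j0 i0 := by
  classical
  by_contra hcon
  have hcross : ∀ k, Relation.ReflTransGen (Edge m Q) i0 k →
      Relation.ReflTransGen (Edge m Q) j0 k →
      ∃ u v, Relation.ReflTransGen (Edge m Q) i0 u ∧ ¬ Relation.ReflTransGen (Edge m Q) j0 u ∧
        Edge m Q u v ∧ Relation.ReflTransGen (Edge m Q) j0 v := by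
    intro k hk
    induction hk with
    | refl => intro h1; exact absurd h1 hcon
    | tail h1 he ih =>
      rename_i u v
      intro h2
      by_cases h3 : Relation.ReflTransGen (Edge m Q) j0 u
      · exact ih h3
      · exact ⟨u, v, h1, h3, he, h2⟩
  obtain ⟨u, v, hiu, hju, huv, hjv⟩ := hcross j0 h Relation.ReflTransGen.refl
  -- every state reachable from `i0` is charged
  have hall : ∀ k, Relation.ReflTransGen (Edge m Q) i0 k →
      ∃ c' : ℝ, 0 < c' ∧ ∃ N1 : ℕ, ∀ N ≥ N1, c' ≤ p N k := by
    intro k hk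
    induction hk with
    | refl => exact ⟨c, hc, N0, hch⟩
    | tail _ he ih =>
      rename_i s t _
      obtain ⟨c', hc', N1, hN1⟩ := ih
      obtain ⟨h1, h2, h3⟩ := he
      refine ⟨c' * Q s t, mul_pos hc' h3, N1 + 1, fun N hN => ?_⟩
      obtain ⟨N', rfl⟩ : ∃ N', N = N' + 1 := ⟨N - 1, by omega⟩
      rw [hst N' t h2]
      calc c' * Q s t ≤ p N' s * Q s t :=
            mul_le_mul_of_nonneg_right (hN1 N' (by omega)) h3.le
        _ ≤ ∑ i ∈ Finset.range m, p N' i * Q i t :=
            Finset.single_le_sum (f := fun i => p N' i * Q i t)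
              (fun i hi => mul_nonneg (hp0 N' i (Finset.mem_range.mp hi))
                (hQ0 i (Finset.mem_range.mp hi) t h2)) (Finset.mem_range.mpr h1)
  obtain ⟨c', hc', N1, hN1⟩ := hall u hiu
  obtain ⟨hum, hvm, hquv⟩ := huv
  let R : Finset ℕ := (Finset.range m).filter (fun k => Relation.ReflTransGen (Edge m Q) j0 k)
  have hvR : v ∈ R := Finset.mem_filter.mpr ⟨Finset.mem_range.mpr hvm, hjv⟩
  have huR : u ∉ R := fun h => hju (Finset.mem_filter.mp h).2
  have hRm : ∀ k ∈ R, k < m := fun k hk => Finset.mem_range.mp (Finset.mem_filter.mp hk).1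
  have hclosed : ∀ i ∈ R, ∑ j ∈ R, Q i j = 1 := by
    intro i hi
    rw [← hQ1 i (hRm i hi)]
    apply Finset.sum_subset (Finset.filter_subset _ _)
    intro j hj hjR
    by_contra hne
    have hjm := Finset.mem_range.mp hj
    have hpos : 0 < Q i j := lt_of_le_of_ne (hQ0 i (hRm i hi) j hjm) (Ne.symm hne)
    apply hjR
    exact Finset.mem_filter.mpr ⟨hj, ((Finset.mem_filter.mp hi).2).tail ⟨hRm i hi, hjm, hpos⟩⟩
  -- the mass of `R` increases by a fixed amount
  have hinc : ∀ N ≥ N1, ∑ j ∈ R, p N j + c' * Q u v ≤ ∑ j ∈ R, p (N + 1) j := by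
    intro N hN
    have h1 : ∑ j ∈ R, p (N + 1) j = ∑ i ∈ Finset.range m, p N i * ∑ j ∈ R, Q i j := by
      rw [Finset.sum_congr rfl (fun j hj => hst N j (hRm j hj)), Finset.sum_comm]
      apply Finset.sum_congr rfl; intro i _; rw [Finset.mul_sum]
    have hnn : ∀ i ∈ Finset.range m, 0 ≤ p N i * ∑ j ∈ R, Q i j := by
      intro i hi
      have him := Finset.mem_range.mp hi
      exact mul_nonneg (hp0 N i him) (Finset.sum_nonneg (fun j hj => hQ0 i him j (hRm j hj)))
    have h2 : ∑ i ∈ insert u R, p N i * ∑ j ∈ R, Q i j ≤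
        ∑ i ∈ Finset.range m, p N i * ∑ j ∈ R, Q i j := by
      apply Finset.sum_le_sum_of_subset_of_nonneg
      · intro i hi
        rcases Finset.mem_insert.mp hi with h | h
        · rw [h]; exact Finset.mem_range.mpr hum
        · exact (Finset.mem_filter.mp h).1
      · intro i hi _; exact hnn i hi
    rw [Finset.sum_insert huR] at h2
    have h3 : ∑ i ∈ R, p N i * ∑ j ∈ R, Q i j = ∑ i ∈ R, p N i := by
      apply Finset.sum_congr rfl; intro i hi; rw [hclosed i hi, mul_one]
    have h4 : c' * Q u v ≤ p N u * ∑ j ∈ R, Q u j := by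
      have h5 : Q u v ≤ ∑ j ∈ R, Q u j := Finset.single_le_sum (f := fun j => Q u j)
        (fun j hj => hQ0 u hum j (hRm j hj)) hvR
      exact mul_le_mul (hN1 N hN) h5 hquv.le (hp0 N u hum)
    rw [h3] at h2
    linarith
  have hgrow : ∀ t : ℕ, (t : ℝ) * (c' * Q u v) ≤ ∑ j ∈ R, p (N1 + t) j := by
    intro t
    induction t with
    | zero =>
      simp only [Nat.cast_zero, zero_mul, add_zero]
      exact Finset.sum_nonneg (fun j hj => hp0 N1 j (hRm j hj))
    | succ t ih =>
      have := hinc (N1 + t) (by omega)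
      push_cast
      rw [← add_assoc]
      linarith
  have hle1 : ∀ N, ∑ j ∈ R, p N j ≤ 1 := by
    intro N
    rw [← hp1 N]
    exact Finset.sum_le_sum_of_subset_of_nonneg (Finset.filter_subset _ _)
      (fun i hi _ => hp0 N i (Finset.mem_range.mp hi))
  have hpos : 0 < c' * Q u v := mul_pos hc' hquv
  obtain ⟨t, ht⟩ := exists_nat_gt (1 / (c' * Q u v))
  have h6 := (hgrow t).trans (hle1 _)
  rw [div_lt_iff₀ hpos] at ht
  linarith

end chain

lemma sum_range_mul_aux (m n : ℕ) (hn : 0 < n) (F : ℕ → ℝ) :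
    ∑ z ∈ Finset.range (m * n), F z =
      ∑ y ∈ Finset.range m, ∑ r ∈ Finset.range n, F (r + n * y) := by
  rw [← Finset.sum_product']
  refine Finset.sum_nbij' (fun z => (z / n, z % n)) (fun p => p.2 + n * p.1) ?_ ?_ ?_ ?_ ?_
  · intro z hz
    have hz' := Finset.mem_range.mp hz
    exact Finset.mem_product.mpr ⟨Finset.mem_range.mpr
      (Nat.div_lt_of_lt_mul (by rw [mul_comm]; exact hz')), Finset.mem_range.mpr (Nat.mod_lt _ hn)⟩
  · intro p hp
    have hp' := Finset.mem_product.mp hp
    have h1 := Finset.mem_range.mp hp'.1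
    have h2 := Finset.mem_range.mp hp'.2
    refine Finset.mem_range.mpr ?_
    calc p.2 + n * p.1 < n + n * p.1 := by omega
      _ = (p.1 + 1) * n := by ring
      _ ≤ m * n := Nat.mul_le_mul_right _ h1
  · intro z _; exact Nat.mod_add_div z n
  · intro p hp
    have hp' := Finset.mem_product.mp hp
    have h2 := Finset.mem_range.mp hp'.2
    ext
    · show (p.2 + n * p.1) / n = p.1
      rw [Nat.add_mul_div_left _ _ hn, Nat.div_eq_of_lt h2, zero_add]
    · show (p.2 + n * p.1) % n = p.2
      rw [Nat.add_mul_mod_self_left, Nat.mod_eq_of_lt h2]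
  · intro z _
    show F z = F (z % n + n * (z / n))
    rw [Nat.mod_add_div]

section entry

variable {d : ℕ} {a b : ℕ → ℤ} {T : ℤ → ℤ}

lemma iter_prod (hT : RPType d a b T) (t : ℕ) (z y : ℤ) :
    T^[t] (z + d ^ t * y) = T^[t] z + (∏ k ∈ Finset.range t, a (res d (T^[k] z))) * y := by
  induction t generalizing z y with
  | zero => simp
  | succ t ih =>
    rw [Function.iterate_succ_apply, Function.iterate_succ_apply]
    have e : z + (d : ℤ) ^ (t + 1) * y = z + d * (d ^ t * y) := by ring
    rw [e, hT.add, show a (z % (d : ℤ)).toNat * ((d : ℤ) ^ t * y) =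
      d ^ t * (a (z % (d : ℤ)).toNat * y) by ring, ih, Finset.prod_range_succ']
    simp only [Function.iterate_succ_apply, Function.iterate_zero, id]
    unfold res
    ring

/-- Transport of the uniform distribution modulo `D` when `D` is coprime to all multipliers. -/
lemma transport (hT : RPType d a b T) {D : ℕ} (hD : 1 ≤ D)
    (hcop : ∀ i < d, IsCoprime (a i) (D : ℤ)) (g : ℤ → ℝ) (hg : ∀ z, g (z + D) = g z) (t : ℕ) :
    ∑ z ∈ Finset.range (D * d ^ t), g (T^[t] (z : ℤ)) =
      (d : ℝ) ^ t * ∑ z ∈ Finset.range D, g z := by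
  have hd : 2 ≤ d := hT.two_le
  rw [sum_range_mul_aux D (d ^ t) (by positivity), Finset.sum_comm]
  have h1 : ∀ r ∈ Finset.range (d ^ t),
      ∑ y ∈ Finset.range D, g (T^[t] ((r + d ^ t * y : ℕ) : ℤ)) = ∑ z ∈ Finset.range D, g z := by
    intro r _
    set M := ∏ k ∈ Finset.range t, a (res d (T^[k] (r : ℤ))) with hM
    have hMcop : IsCoprime M (D : ℤ) := by
      rw [hM]
      apply IsCoprime.prod_left
      intro k _
      exact hcop _ (res_lt (by omega) _)
    have e1 : ∀ y ∈ Finset.range D, g (T^[t] ((r + d ^ t * y : ℕ) : ℤ)) =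
        g (T^[t] (r : ℤ) + M * y) := by
      intro y _
      push_cast
      rw [iter_prod hT]
    rw [Finset.sum_congr rfl e1]
    rw [sum_unit hD (fun y : ℤ => g (T^[t] (r : ℤ) + y)) (fun y => by
      show g (T^[t] (r : ℤ) + (y + D)) = g (T^[t] (r : ℤ) + y)
      rw [← add_assoc, hg]) M hMcop, sum_shift hD g hg]
  rw [Finset.sum_congr rfl h1, Finset.sum_const, Finset.card_range, nsmul_eq_mul]
  push_cast; ring

/-- unnormalised law at time `N` -/
noncomputable def law (d m : ℕ) (T : ℤ → ℤ) (N : ℕ) (f : ℕ → ℝ) : ℝ :=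
  ∑ z ∈ Finset.range (m * d ^ N), f (res m (T^[N] (z : ℤ)))

lemma law_succ (hT : RPType d a b T) {m : ℕ} (hm : 1 ≤ m) (N : ℕ) (f : ℕ → ℝ) :
    law d m T (N + 1) f = d * law d m T N (Pop d m T f) := by
  have hd : 2 ≤ d := hT.two_le
  unfold law
  have e0 : m * d ^ (N + 1) = d * (m * d ^ N) := by ring
  rw [e0, sum_range_mul_aux d (m * d ^ N) (Nat.mul_pos hm (by positivity)), Finset.sum_comm,
    Finset.mul_sum]
  apply Finset.sum_congr rfl
  intro r _
  have h1 := hT.sum_phi hm f N (r : ℤ)
  have e1 : ∀ h ∈ Finset.range d, phi d m T f (T^[N] ((r : ℤ) + m * d ^ N * h)) =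
      f (res m (T^[N + 1] ((r + m * d ^ N * h : ℕ) : ℤ))) - Pop d m T f (res m (T^[N] (r : ℤ))) := by
    intro h _
    unfold phi
    obtain ⟨w, hw⟩ := hT.res_iter_add m N N le_rfl (r : ℤ) h
    rw [← Function.iterate_succ_apply' T N, hw, res_add_mul]
    push_cast; rfl
  rw [Finset.sum_congr rfl e1, Finset.sum_sub_distrib, Finset.sum_const, Finset.card_range,
    nsmul_eq_mul] at h1
  linarith

/-- The general entry lemma: once the product of the multipliers along the trajectory is divisible
by the part `mc` of `m` (where `m = m' * mc` and `m'` is coprime to all multipliers), the residue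
of the trajectory is recurrent. -/
lemma recurrent_of_prod (hT : RPType d a b T) {m m' mc : ℕ} (hm : 1 ≤ m) (hmm : m = m' * mc)
    (hcop : ∀ i < d, IsCoprime (a i) (m' : ℤ)) {x : ℤ} {n : ℕ}
    (hn : (mc : ℤ) ∣ ∏ k ∈ Finset.range n, a (res d (T^[k] x))) {j0 : ℕ}
    (h : Relation.ReflTransGen (Edge m (q d m T)) (res m (T^[n] x)) j0) :
    Relation.ReflTransGen (Edge m (q d m T)) j0 (res m (T^[n] x)) := by
  classical
  have hd : 2 ≤ d := hT.two_le
  have hm' : 1 ≤ m' := by
    rcases Nat.eq_zero_or_pos m' with h0 | h0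
    · rw [h0, zero_mul] at hmm; omega
    · exact h0
  have hmc : 1 ≤ mc := by
    rcases Nat.eq_zero_or_pos mc with h0 | h0
    · rw [h0, mul_zero] at hmm; omega
    · exact h0
  set p : ℕ → ℕ → ℝ := fun N j => law d m T N (fun k => if k = j then 1 else 0) /
    ((m : ℝ) * d ^ N) with hp
  have hden : ∀ N : ℕ, (0 : ℝ) < (m : ℝ) * d ^ N := fun N => by
    have : (0 : ℝ) < m := by exact_mod_cast hm
    positivity
  -- linear expansion of the law
  have hlin : ∀ (N : ℕ) (f : ℕ → ℝ), law d m T N f / ((m : ℝ) * d ^ N) =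
      ∑ j ∈ Finset.range m, p N j * f j := by
    intro N f
    simp only [hp]
    have e1 : law d m T N f = ∑ j ∈ Finset.range m,
        law d m T N (fun k => if k = j then 1 else 0) * f j := by
      unfold law
      simp only [Finset.sum_mul]
      rw [Finset.sum_comm]
      apply Finset.sum_congr rfl
      intro z _
      simp only [ite_mul, one_mul, zero_mul]
      rw [Finset.sum_ite_eq, if_pos (Finset.mem_range.mpr (res_lt hm _))]
    rw [e1, Finset.sum_div]
    apply Finset.sum_congr rfl; intro j _; ring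
  refine recur_of_charged (p := p) (N0 := n) (c := 1 / ((m' : ℝ) * d ^ n)) ?_ ?_
    (fun i _ j _ => q_nonneg m i j) (fun i hi => q_row hT hi) ?_ ?_ ?_ h
  · intro N i _
    simp only [hp]
    apply div_nonneg _ (hden N).le
    unfold law
    apply Finset.sum_nonneg; intro z _; positivity
  · intro N
    have h1 := hlin N (fun _ => 1)
    simp only [mul_one] at h1
    rw [← h1]
    unfold law
    rw [Finset.sum_const, Finset.card_range, nsmul_eq_mul]
    have := (hden N).ne'
    push_cast
    field_simp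
  · intro N j hj
    show law d m T (N + 1) (fun k => if k = j then 1 else 0) / ((m : ℝ) * d ^ (N + 1)) = _
    rw [law_succ hT hm]
    have h1 := hlin N (Pop d m T (fun k => if k = j then 1 else 0))
    have e1 : ∀ i, Pop d m T (fun k => if k = j then (1 : ℝ) else 0) i = q d m T i j := by
      intro i
      unfold Pop
      simp only [mul_ite, mul_one, mul_zero]
      rw [Finset.sum_ite_eq', if_pos (Finset.mem_range.mpr hj)]
    have e2 : ∑ i ∈ Finset.range m, p N i * q d m T i j = ∑ i ∈ Finset.range m, p N i *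
        Pop d m T (fun k => if k = j then (1 : ℝ) else 0) i :=
      Finset.sum_congr rfl (fun i _ => by rw [e1])
    rw [e2, ← h1]
    have hd0 : (d : ℝ) ≠ 0 := by positivity
    have h5 := (hden N).ne'
    have hmr : (m : ℝ) ≠ 0 := by
      have : (0 : ℝ) < m := by exact_mod_cast hm
      exact this.ne'
    rw [pow_succ]
    field_simp
  · have : (0 : ℝ) < m' := by exact_mod_cast hm'
    positivity
  · intro N hN
    show 1 / ((m' : ℝ) * d ^ n) ≤ law d m T N (fun k => if k = res m (T^[n] x) then 1 else 0) /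
      ((m : ℝ) * d ^ N)
    obtain ⟨t, rfl⟩ : ∃ t, N = t + n := ⟨N - n, by omega⟩
    set D := m' * d ^ n with hD
    have hD1 : 1 ≤ D := Nat.mul_pos hm' (by positivity)
    have hcopD : ∀ i < d, IsCoprime (a i) (D : ℤ) := by
      intro i hi
      rw [hD]; push_cast
      exact IsCoprime.mul_right (hcop i hi) ((hT.coprime i hi).pow_right)
    set g : ℤ → ℝ := fun z => if res D z = res D x then 1 else 0 with hg
    have hgper : ∀ z, g (z + D) = g z := by
      intro z
      simp only [hg]
      have := res_add_mul (m := D) z 1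
      rw [mul_one] at this
      rw [this]
    -- pointwise comparison
    have hpt : ∀ z : ℤ, g (T^[t] z) ≤
        (if res m (T^[t + n] z) = res m (T^[n] x) then (1 : ℝ) else 0) := by
      intro z
      simp only [hg]
      by_cases h1 : res D (T^[t] z) = res D x
      · rw [if_pos h1, if_pos]
        have h2 : T^[t] z % (D : ℤ) = x % (D : ℤ) := by
          rw [← res_cast hD1, ← res_cast hD1, h1]
        obtain ⟨w, hw⟩ : (D : ℤ) ∣ T^[t] z - x := Int.ModEq.dvd (show x ≡ T^[t] z [ZMOD D] from h2.symm)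
        have h3 : T^[t] z = x + d ^ n * (m' * w) := by
          have : T^[t] z = x + D * w := by linarith
          rw [this, hD]; push_cast; ring
        obtain ⟨v, hv⟩ := hn
        have h4 : T^[t + n] z = T^[n] x + m * (v * w) := by
          rw [add_comm t n, Function.iterate_add_apply, h3, iter_prod hT, hv, hmm]
          push_cast; ring
        rw [h4, res_add_mul]
      · rw [if_neg h1]; positivity
    have hcount : (mc : ℝ) * d ^ t ≤
        law d m T (t + n) (fun k => if k = res m (T^[n] x) then 1 else 0) := by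
      unfold law
      have e1 : m * d ^ (t + n) = mc * (D * d ^ t) := by rw [hmm, hD, pow_add]; ring
      rw [e1, sum_range_mul_aux mc (D * d ^ t) (Nat.mul_pos hD1 (by positivity))]
      have e2 : ∀ y ∈ Finset.range mc, (d : ℝ) ^ t ≤ ∑ r ∈ Finset.range (D * d ^ t),
          (if res m (T^[t + n] ((r + D * d ^ t * y : ℕ) : ℤ)) = res m (T^[n] x) then (1 : ℝ)
            else 0) := by
        intro y _
        have h1 : (d : ℝ) ^ t = ∑ r ∈ Finset.range (D * d ^ t), g (T^[t] (r : ℤ)) := by
          rw [transport hT hD1 hcopD g hgper t]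
          have h2 : ∑ z ∈ Finset.range D, g z = 1 := by
            simp only [hg]
            rw [Finset.sum_eq_single (res D x)]
            · rw [res_natCast (res_lt hD1 x), if_pos rfl]
            · intro r hr hne
              rw [res_natCast (Finset.mem_range.mp hr), if_neg hne]
            · intro h; exact absurd (Finset.mem_range.mpr (res_lt hD1 x)) h
          rw [h2, mul_one]
        rw [h1]
        -- shift by a period
        have hG : ∀ z : ℤ, (fun z : ℤ => g (T^[t] z)) (z + ((D * d ^ t : ℕ) : ℤ)) =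
            (fun z : ℤ => g (T^[t] z)) z := by
          intro z
          show g (T^[t] (z + ((D * d ^ t : ℕ) : ℤ))) = g (T^[t] z)
          have e3 : z + ((D * d ^ t : ℕ) : ℤ) = z + d ^ t * D := by push_cast; ring
          rw [e3, iter_prod hT, mul_comm _ (D : ℤ)]
          exact periodic_mul g hgper _ _
        have h3 := sum_shift (n := D * d ^ t) (Nat.mul_pos hD1 (by positivity))
          (fun z : ℤ => g (T^[t] z)) hG (((D * d ^ t * y : ℕ) : ℤ))
        rw [← h3]
        apply Finset.sum_le_sum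
        intro r _
        have h4 := hpt (((D * d ^ t * y : ℕ) : ℤ) + r)
        have e5 : (((D * d ^ t * y : ℕ) : ℤ) + r) = ((r + D * d ^ t * y : ℕ) : ℤ) := by
          push_cast; ring
        rw [← e5]; exact h4
      calc (mc : ℝ) * d ^ t = ∑ y ∈ Finset.range mc, (d : ℝ) ^ t := by
            rw [Finset.sum_const, Finset.card_range, nsmul_eq_mul]
        _ ≤ _ := Finset.sum_le_sum e2
    rw [div_le_div_iff₀ (by have : (0 : ℝ) < m' := by exact_mod_cast hm'
                            positivity) (hden _), one_mul]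
    have hm'r : (0 : ℝ) < m' := by exact_mod_cast hm'
    have hmr : (m : ℝ) = m' * mc := by rw [hmm]; push_cast; ring
    calc (m : ℝ) * d ^ (t + n) = (mc * d ^ t) * (m' * d ^ n) := by rw [hmr, pow_add]; ring
      _ ≤ _ := mul_le_mul_of_nonneg_right hcount (by positivity)

/-- A recurrent residue gives the closed class in which the trajectory stays. -/
lemma class_of_recurrent (hT : RPType d a b T) {m : ℕ} (hm : 1 ≤ m) {x : ℤ} {n : ℕ}
    (h : ∀ j0, Relation.ReflTransGen (Edge m (q d m T)) (res m (T^[n] x)) j0 →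
      Relation.ReflTransGen (Edge m (q d m T)) j0 (res m (T^[n] x))) :
    ∃ C : Finset ℕ, ClosedClass d m T C ∧
      ∃ K : ℕ, ∀ k ≥ K, (T^[k] x % (m : ℤ)).toNat ∈ C := by
  classical
  set i0 := res m (T^[n] x) with hi0def
  have hi0 : i0 < m := res_lt hm _
  let C : Finset ℕ := (Finset.range m).filter
    (fun j => Relation.ReflTransGen (Edge m (q d m T)) i0 j)
  have hCm : C ⊆ Finset.range m := Finset.filter_subset _ _
  have hi0C : i0 ∈ C := Finset.mem_filter.mpr
    ⟨Finset.mem_range.mpr hi0, Relation.ReflTransGen.refl⟩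
  have hcl : ∀ i ∈ C, ∀ j < m, 0 < q d m T i j → j ∈ C := by
    intro i hi j hj hq
    have h1 := (Finset.mem_filter.mp hi).2
    exact Finset.mem_filter.mpr ⟨Finset.mem_range.mpr hj,
      h1.tail ⟨Finset.mem_range.mp (hCm hi), hj, hq⟩⟩
  refine ⟨C, ⟨⟨i0, hi0C⟩, hCm, ?_, hcl⟩, n, ?_⟩
  · intro i hi j hj
    exact (h i (Finset.mem_filter.mp hi).2).trans (Finset.mem_filter.mp hj).2
  · intro k hk
    induction k, hk using Nat.le_induction with
    | base => exact hi0C
    | succ k _ ih =>
      rw [Function.iterate_succ_apply']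
      obtain ⟨_, h2, h3⟩ := edge_step hT hm (T^[k] x)
      exact hcl _ ih _ h2 h3

end entry

end Pool.Agent.Lib.MP_b75863_nt
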